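import Pool.Agent.H830R3.PB.T2
import Pool.Agent.H39R3.PS.Defs

/-! H39-PAL5, TaskSB (helper142): port of `Pool.Agent.H985R2.Pal.sqB`. -/

set_option autoImplicit false

namespace Pool.Agent.H142R3.PS

open Finset Pool.Agent.Helper112 Pool.Agent.H39R3.PB Pool.Agent.H830R3.PB.T2
open Pool.Agent.H39R3.PS (EM)

theorem EM_eq {b : ℕ} (L A J M : ℕ) (hM : 0 < M) :
    EM M (fun α => Ps b L A J α ^ 2) =
      (∑ p : (Fin J → Fin b) × (Fin J → Fin b),
        if (M : ℤ) ∣ ((NN b L A J p.1 : ℤ) - NN b L A J p.2) then (1 : ℝ) else 0) / b ^ (2 * J) := by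
  unfold EM
  have h := inner_sum (b := b) L A J M hM
  rw [h]
  have hM0 : (M : ℝ) ≠ 0 := by exact_mod_cast hM.ne'
  have e : (∑ p : (Fin J → Fin b) × (Fin J → Fin b),
        if (M : ℤ) ∣ ((NN b L A J p.1 : ℤ) - NN b L A J p.2) then (M : ℝ) else 0) =
      (∑ p : (Fin J → Fin b) × (Fin J → Fin b),
        if (M : ℤ) ∣ ((NN b L A J p.1 : ℤ) - NN b L A J p.2) then (1 : ℝ) else 0) * M := by
    rw [sum_mul]
    apply sum_congr rfl
    intro p _
    split_ifs <;> simp
  rw [e, div_div, mul_comm ((b : ℝ) ^ (2 * J)) (M : ℝ), ← div_div, mul_div_assoc, div_self hM0,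
    mul_one]

theorem pair {b : ℕ} (hb : 2 ≤ b) (L A J P : ℕ) (T : ℝ) (hA : A + J ≤ L)
    (hT : ∀ n : ℕ, 1 ≤ n → n ≤ b ^ (2 * L + 1) → (n.divisors.card : ℝ) ≤ T)
    (p : (Fin J → Fin b) × (Fin J → Fin b)) :
    ∑ m ∈ (Ico P (2 * P)).filter (fun m => m.Coprime (2 * b)),
      (if ((m ^ 2 : ℕ) : ℤ) ∣ ((NN b L A J p.1 : ℤ) - NN b L A J p.2) then (1 : ℝ) else 0) ≤
      (if p.1 = p.2 then (P : ℝ) else 0) + T := by
  have hT0 : 0 ≤ T := by
    have := hT 1 le_rfl (Nat.one_le_pow _ _ (by omega))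
    refine le_trans ?_ this
    positivity
  rw [← sum_filter, sum_const, nsmul_eq_mul, mul_one]
  split_ifs with h
  · have h1 : (((Ico P (2 * P)).filter (fun m => m.Coprime (2 * b))).filter
        (fun m => ((m ^ 2 : ℕ) : ℤ) ∣ ((NN b L A J p.1 : ℤ) - NN b L A J p.2))).card ≤ P := by
      refine (card_filter_le _ _).trans ((card_filter_le _ _).trans ?_)
      rw [Nat.card_Ico]; omega
    have h2 : ((((Ico P (2 * P)).filter (fun m => m.Coprime (2 * b))).filter
        (fun m => ((m ^ 2 : ℕ) : ℤ) ∣ ((NN b L A J p.1 : ℤ) - NN b L A J p.2))).card : ℝ) ≤ P := by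
      exact_mod_cast h1
    linarith
  · rw [zero_add]
    have hne : NN b L A J p.1 ≠ NN b L A J p.2 := fun h' => h (NN_inj hb L A J hA h')
    set n := ((NN b L A J p.1 : ℤ) - NN b L A J p.2).natAbs with hn
    have hn1 : 1 ≤ n := by omega
    have hle1 := NN_le hb L A J hA p.1
    have hle2 := NN_le hb L A J hA p.2
    have hn2 : n ≤ b ^ (2 * L + 1) := by omega
    refine le_trans ?_ (hT n hn1 hn2)
    have hsub : ((Ico P (2 * P)).filter (fun m => m.Coprime (2 * b))).filter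
        (fun m => ((m ^ 2 : ℕ) : ℤ) ∣ ((NN b L A J p.1 : ℤ) - NN b L A J p.2)) ⊆ n.divisors := by
      intro m hm
      rw [mem_filter] at hm
      have h3 : m ^ 2 ∣ n := by
        rw [hn, ← Int.natCast_dvd]; exact hm.2
      exact Nat.mem_divisors.2 ⟨(dvd_pow_self m (by norm_num)).trans h3, by omega⟩
    exact_mod_cast card_le_card hsub

theorem taskSB : Pool.Agent.H39R3.PS.TaskSB := by
  intro b hb L A J P T hA hT hP hP1
  have hb0 : (0 : ℝ) < b := by exact_mod_cast (by omega : 0 < b)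
  have h1 : ∑ m ∈ (Ico P (2 * P)).filter (fun m => m.Coprime (2 * b)),
      EM (m ^ 2) (fun α => Ps b L A J α ^ 2) =
      (∑ p : (Fin J → Fin b) × (Fin J → Fin b),
        ∑ m ∈ (Ico P (2 * P)).filter (fun m => m.Coprime (2 * b)),
        if ((m ^ 2 : ℕ) : ℤ) ∣ ((NN b L A J p.1 : ℤ) - NN b L A J p.2) then (1 : ℝ) else 0) /
        b ^ (2 * J) := by
    rw [sum_comm, sum_div]
    apply sum_congr rfl
    intro m hm
    rw [mem_filter, mem_Ico] at hm
    exact EM_eq L A J (m ^ 2) (pow_pos (by omega) 2)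
  rw [h1, div_le_iff₀ (by positivity)]
  calc _ ≤ ∑ p : (Fin J → Fin b) × (Fin J → Fin b), ((if p.1 = p.2 then (P : ℝ) else 0) + T) :=
        sum_le_sum (fun p _ => pair hb L A J P T hA hT p)
    _ = b ^ J * P + b ^ (2 * J) * T := by
        rw [sum_add_distrib, sum_const, card_univ, Fintype.card_prod, Fintype.card_fun,
          Fintype.card_fin, Fintype.card_fin, nsmul_eq_mul]
        congr 1
        · rw [Fintype.sum_prod_type]
          simp only [Finset.sum_ite_eq, mem_univ, if_true]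
          rw [sum_const, card_univ, Fintype.card_fun, Fintype.card_fin, Fintype.card_fin,
            nsmul_eq_mul]
          push_cast
          ring
        · push_cast
          ring
    _ ≤ (b + T) * b ^ (2 * J) := by
        have h3 : (P : ℝ) ≤ b * b ^ J := by exact_mod_cast hP
        have h5 : (b : ℝ) ^ (2 * J) = b ^ J * b ^ J := by rw [two_mul, pow_add]
        rw [h5]
        have h7 : (0 : ℝ) < (b : ℝ) ^ J := by positivity
        nlinarith [mul_le_mul_of_nonneg_left h3 h7.le]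

end Pool.Agent.H142R3.PS
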